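import Pool.Agent.Helper58.R3.Stmts

set_option autoImplicit false
open Classical

namespace Pool.Agent.Helper58.R3

open Pool.Agent.Helper28.RS (TF amal Bet gm gm_inl gm_inr gm_inj amal_ll amal_nbr)
open Pool.Agent.Helper77.SND (Copy C3)

/-- the inner set of the amalgam -/
noncomputable def cfg_X {m w : ℕ} (f : Fin m → Fin w ⊕ (Finset (Fin w) × Fin m)) :
    Finset (Fin m) :=
  Finset.univ.filter (fun x => ∃ i, f x = Sum.inl i)

noncomputable def cfg_L {m w : ℕ} (f : Fin m → Fin w ⊕ (Finset (Fin w) × Fin m))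
    (T : Finset (Fin w)) : Finset (Fin m) :=
  Finset.univ.filter (fun x => ∃ p, f x = Sum.inr (T, p))

noncomputable def cfg_D {m w : ℕ} (f : Fin m → Fin w ⊕ (Finset (Fin w) × Fin m))
    (T : Finset (Fin w)) : Finset (Fin m) :=
  if T.card = 3 then Finset.univ.filter (fun x => ∃ i ∈ T, f x = Sum.inl i) else ∅

noncomputable def cfg_Phi {m w : ℕ} (H : SimpleGraph (Fin m)) (v0 : Fin m)
    (β : Finset (Fin w) → Fin m → Fin w) (f : Fin m → Fin w ⊕ (Finset (Fin w) × Fin m))
    (T : Finset (Fin w)) (x : Fin m) : Fin m :=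
  Sum.elim (fun i => if h : ∃ u, H.Adj v0 u ∧ β T u = i then Classical.choose h else v0)
    (fun p => p.2) (f x)

theorem st_CFG : ST_CFG := by
  intro m H v0 htf hk3 hdeg hmn w β hβ f hf
  obtain ⟨finj, fhom⟩ := hf
  -- every vertex has a neighbour
  have hnb : ∀ x, ∃ y, H.Adj x y := by
    intro x
    by_contra hno
    have hall : ∀ z : Fin m, z = x := by
      intro z
      have h0 : nb H {x} = ∅ := by
        rw [Finset.eq_empty_iff_forall_notMem]
        intro y hy
        simp only [nb, Finset.mem_filter, Finset.mem_univ, true_and, Finset.mem_singleton] at hy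
        obtain ⟨_, y', hy', hadj⟩ := hy
        subst hy'
        exact hno ⟨y, hadj⟩
      have h1 := hk3 {x} (Finset.singleton_nonempty x) (by rw [h0]; simp) z
      rw [h0] at h1
      rcases h1 with h1 | h1
      · simpa using h1
      · simp at h1
    have h2 : (N H v0).card ≤ 1 := by
      apply Finset.card_le_one.2
      intro a _ b _
      rw [hall a, hall b]
    omega
  have hL : ∀ T x p, f x = Sum.inr (T, p) → T.card = 3 ∧ p ≠ v0 ∧ ¬ H.Adj v0 p := by
    intro T x p hx
    obtain ⟨y, hy⟩ := hnb x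
    have h1 := fhom x y hy
    rw [hx] at h1
    obtain ⟨a, b, c, _⟩ := amal_nbr hβ h1
    exact ⟨a, b, c⟩
  have hPhiL : ∀ T T' x p, f x = Sum.inr (T', p) → cfg_Phi H v0 β f T x = p := by
    intro T T' x p hx
    simp only [cfg_Phi, hx, Sum.elim_inr]
  have hPhiD : ∀ T x i, T.card = 3 → i ∈ T → f x = Sum.inl i →
      H.Adj v0 (cfg_Phi H v0 β f T x) ∧ β T (cfg_Phi H v0 β f T x) = i := by
    intro T x i hT hi hx
    have h : ∃ u, H.Adj v0 u ∧ β T u = i := (hβ T hT).2.2 i hi
    have e : cfg_Phi H v0 β f T x = Classical.choose h := by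
      simp only [cfg_Phi, hx, Sum.elim_inl]
      rw [dif_pos h]
    rw [e]
    exact Classical.choose_spec h
  have key : ∀ T x, x ∈ cfg_L f T ∪ cfg_D f T → T.card = 3 ∧
      gm H v0 β T (cfg_Phi H v0 β f T x) = f x := by
    intro T x hx
    rcases Finset.mem_union.1 hx with h | h
    · simp only [cfg_L, Finset.mem_filter, Finset.mem_univ, true_and] at h
      obtain ⟨p, hp⟩ := h
      obtain ⟨a, b, c⟩ := hL T x p hp
      refine ⟨a, ?_⟩
      rw [hPhiL T T x p hp, hp]
      unfold gm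
      rw [if_neg c]
    · by_cases hT : T.card = 3
      · simp only [cfg_D, hT, if_true, Finset.mem_filter, Finset.mem_univ, true_and] at h
        obtain ⟨i, hi, hfi⟩ := h
        obtain ⟨a, b⟩ := hPhiD T x i hT hi hfi
        refine ⟨hT, ?_⟩
        unfold gm
        rw [if_pos a, b, hfi]
      · simp [cfg_D, hT] at h
  have hDmem : ∀ T x, x ∈ cfg_D f T → T.card = 3 ∧ ∃ i ∈ T, f x = Sum.inl i := by
    intro T x h
    by_cases hT : T.card = 3
    · simp only [cfg_D, hT, if_true, Finset.mem_filter, Finset.mem_univ, true_and] at h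
      exact ⟨hT, h⟩
    · simp [cfg_D, hT] at h
  have hDmk : ∀ T x i, T.card = 3 → i ∈ T → f x = Sum.inl i → x ∈ cfg_D f T := by
    intro T x i hT hi hx
    simp only [cfg_D, hT, if_true, Finset.mem_filter, Finset.mem_univ, true_and]
    exact ⟨i, hi, hx⟩
  have hLmem : ∀ T x, x ∈ cfg_L f T ↔ ∃ p, f x = Sum.inr (T, p) := by
    intro T x
    simp only [cfg_L, Finset.mem_filter, Finset.mem_univ, true_and]
  have hXmem : ∀ x, x ∈ cfg_X f ↔ ∃ i, f x = Sum.inl i := by
    intro x
    simp only [cfg_X, Finset.mem_filter, Finset.mem_univ, true_and]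
  refine ⟨cfg_X f, cfg_L f, cfg_D f, cfg_Phi H v0 β f, ?_⟩
  refine
    { k3 := hk3, deg := hdeg, mn := hmn, cov := ?_, LX := ?_, LL := ?_, DX := ?_, ind := ?_,
      nbL := ?_, inj := ?_, hom := ?_, ΦL := ?_, ΦD := ?_, dst := ?_ }
  · intro x
    cases hx : f x with
    | inl i => exact Or.inl ((hXmem x).2 ⟨i, hx⟩)
    | inr p =>
      obtain ⟨T, p⟩ := p
      exact Or.inr ⟨T, (hLmem T x).2 ⟨p, hx⟩⟩
  · intro l x hx hX
    obtain ⟨p, hp⟩ := (hLmem l x).1 hx
    obtain ⟨i, hi⟩ := (hXmem x).1 hX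
    rw [hp] at hi
    exact absurd hi (by simp)
  · intro l l' x hx hx'
    obtain ⟨p, hp⟩ := (hLmem l x).1 hx
    obtain ⟨p', hp'⟩ := (hLmem l' x).1 hx'
    rw [hp] at hp'
    exact congrArg Prod.fst (Sum.inr.inj hp')
  · intro l x hx
    obtain ⟨_, i, _, hi⟩ := hDmem l x hx
    exact (hXmem x).2 ⟨i, hi⟩
  · intro x hx y hy hadj
    obtain ⟨i, hi⟩ := (hXmem x).1 hx
    obtain ⟨j, hj⟩ := (hXmem y).1 hy
    have := fhom x y hadj
    rw [hi, hj] at this
    exact amal_ll htf this
  · intro l x hx y hadj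
    obtain ⟨p, hp⟩ := (hLmem l x).1 hx
    have h1 := fhom x y hadj
    rw [hp] at h1
    obtain ⟨hT, _, _, q, hpq, hq⟩ := amal_nbr hβ h1
    cases hy : f y with
    | inl i =>
      rw [hy] at hq
      obtain ⟨a, b⟩ := gm_inl hq
      exact Or.inr (hDmk l y i hT (b ▸ (hβ l hT).1 q a) hy)
    | inr p' =>
      obtain ⟨T', p'⟩ := p'
      rw [hy] at hq
      obtain ⟨a, b, c⟩ := gm_inr hq
      subst b
      exact Or.inl ((hLmem _ y).2 ⟨p', hy⟩)
  · intro l x hx y hy hxy
    obtain ⟨_, h1⟩ := key l x hx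
    obtain ⟨_, h2⟩ := key l y hy
    rw [hxy] at h1
    exact finj (h1.symm.trans h2)
  · intro l x hx y hy hadj
    obtain ⟨hT, h1⟩ := key l x hx
    obtain ⟨_, h2⟩ := key l y hy
    obtain ⟨_, T1, u, v, hT1, huv, _, _, g1, g2⟩ := fhom x y hadj
    have hTl : T1 = l := by
      rcases Finset.mem_union.1 hx with h | h
      · obtain ⟨p, hp⟩ := (hLmem l x).1 h
        rw [hp] at g1
        exact (gm_inr g1).2.1
      · rcases Finset.mem_union.1 hy with h' | h'
        · obtain ⟨p, hp⟩ := (hLmem l y).1 h'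
          rw [hp] at g2
          exact (gm_inr g2).2.1
        · obtain ⟨_, i, _, hi⟩ := hDmem l x h
          obtain ⟨_, j, _, hj⟩ := hDmem l y h'
          have := fhom x y hadj
          rw [hi, hj] at this
          exact absurd this (amal_ll htf)
    subst hTl
    have e1 : u = cfg_Phi H v0 β f T1 x := gm_inj hβ hT (g1.trans h1.symm)
    have e2 : v = cfg_Phi H v0 β f T1 y := gm_inj hβ hT (g2.trans h2.symm)
    rw [← e1, ← e2]
    exact huv
  · intro l x hx
    obtain ⟨p, hp⟩ := (hLmem l x).1 hx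
    obtain ⟨_, b, c⟩ := hL l x p hp
    rw [hPhiL l l x p hp]
    exact ⟨b, c⟩
  · intro l x hx
    obtain ⟨hT, i, hi, hfi⟩ := hDmem l x hx
    exact (hPhiD l x i hT hi hfi).1
  · intro l l' hc heq
    have hne : (cfg_D f l).Nonempty := Finset.card_pos.1 (by omega)
    obtain ⟨x0, hx0⟩ := hne
    have hl : l.card = 3 := (hDmem l x0 hx0).1
    have hl' : l'.card = 3 := (hDmem l' x0 (heq ▸ hx0)).1
    have hsub : (cfg_D f l).image f ⊆ l.image Sum.inl := by
      intro z hz
      obtain ⟨x, hx, rfl⟩ := Finset.mem_image.1 hz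
      obtain ⟨_, i, hi, hfi⟩ := hDmem l x hx
      exact Finset.mem_image.2 ⟨i, hi, hfi.symm⟩
    have hcard : (l.image (Sum.inl : Fin w → Fin w ⊕ (Finset (Fin w) × Fin m))).card ≤
        ((cfg_D f l).image f).card := by
      rw [Finset.card_image_of_injective _ Sum.inl_injective,
        Finset.card_image_of_injective _ finj, hl, hc]
    have heq2 := Finset.eq_of_subset_of_card_le hsub hcard
    have hll : l ⊆ l' := by
      intro i hi
      have : (Sum.inl i : Fin w ⊕ (Finset (Fin w) × Fin m)) ∈ (cfg_D f l).image f := by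
        rw [heq2]
        exact Finset.mem_image.2 ⟨i, hi, rfl⟩
      obtain ⟨x, hx, hfx⟩ := Finset.mem_image.1 this
      obtain ⟨_, j, hj, hfj⟩ := hDmem l' x (heq ▸ hx)
      rw [hfx] at hfj
      rw [Sum.inl.inj hfj]
      exact hj
    exact Finset.eq_of_subset_of_card_le hll (by omega)

end Pool.Agent.Helper58.R3
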